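import Mathlib

namespace Pool.Agent.Results.MP_d6d41b_al.NotTransitive

/-- strong o-conjugacy in a monoid `S` (so `S¹ = S`) -/
def SO {S : Type} [Monoid S] (a b : S) : Prop :=
  ∃ g h : S, g * h * g = g ∧ h * g * h = h ∧ a * g = g * b ∧ b * h = h * a

def IsRegular (S : Type) [Monoid S] : Prop := ∀ x : S, ∃ y, x = x * y * x

abbrev X := ℕ × ℕ × ℕ

def F (σ : ℕ → ℕ) (x : X) : X :=
  if 0 < x.2.2 ∧ x.2.2 ≤ σ x.1 * x.2.1 then (x.1, x.2.1, x.2.2 - 1) else (x.1, x.2.1 + 1, 0)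

def P (σ : ℕ → ℕ) (x : X) : ℕ := σ x.1 * x.2.1 - x.2.2

lemma F1 (σ : ℕ → ℕ) (m : ℕ) (x : X) : ((F σ)^[m] x).1 = x.1 ∧ ((F σ)^[m] x).2.1 ≤ x.2.1 + m := by
  induction m with
  | zero => simp
  | succ m ih => rw [Function.iterate_succ_apply', F]; split_ifs <;> simp <;> omega

lemma FP (σ : ℕ → ℕ) (h : ∀ k, 1 ≤ σ k) (m : ℕ) (x : X) : m ≤ P σ ((F σ)^[m] x) := by
  induction m with
  | zero => simp
  | succ m ih =>
    rw [Function.iterate_succ_apply']
    generalize (F σ)^[m] x = y at ih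
    have := h y.1
    unfold P F at *
    split_ifs
    · simp; omega
    · simp [mul_add]; omega

lemma spine (σ : ℕ → ℕ) (k n m : ℕ) : (F σ)^[m] (k, n, 0) = (k, n + m, 0) := by
  induction m with
  | zero => simp
  | succ m ih => rw [Function.iterate_succ_apply', ih]; simp [F, add_assoc]

lemma hair (σ : ℕ → ℕ) (k n t : ℕ) (h : t ≤ σ k * n) : (F σ)^[t] (k, n, t) = (k, n, 0) := by
  induction t with
  | zero => simp
  | succ t ih => rw [Function.iterate_succ_apply, F, if_pos (by simpa using h)]; exact ih (by omega)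

lemma slope (σ τ : ℕ → ℕ) (hτ : ∀ k, 1 ≤ τ k) (φ : X → X) (h : Function.Semiconj φ (F σ) (F τ))
    (x : X) : σ x.1 ≤ τ (φ x).1 := by
  obtain ⟨k, n, t⟩ := x
  have h1 : (φ (k, n, t)).1 = (φ (k, 0, 0)).1 := by
    obtain ⟨a, b, hab⟩ : ∃ a b, (F σ)^[a] (k, n, t) = (F σ)^[b] (k, 0, 0) := by
      by_cases ht : t ≤ σ k * n
      · exact ⟨t, n, by rw [hair _ _ _ _ ht, spine]; simp⟩
      · exact ⟨1, n + 1, by rw [spine]; simp [F, ht]⟩
    have := congrArg (fun y => (φ y).1) hab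
    simpa [(h.iterate_right _).eq, (F1 τ _ _).1] using this
  rw [h1]
  have h2 : ∀ m, σ k * m ≤ τ (φ (k, 0, 0)).1 * ((φ (k, 0, 0)).2.1 + m) := by
    intro m
    have e1 := FP τ hτ (σ k * m) (φ (k, m, σ k * m))
    rw [← (h.iterate_right _).eq, hair _ _ _ _ le_rfl] at e1
    have e2 := F1 τ m (φ (k, 0, 0))
    rw [← (h.iterate_right _).eq, spine, zero_add] at e2
    unfold P at e1
    rw [e2.1] at e1
    exact (e1.trans (Nat.sub_le _ _)).trans (Nat.mul_le_mul_left _ e2.2)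
  by_contra hc
  push Not at hc
  have := h2 (τ (φ (k, 0, 0)).1 * (φ (k, 0, 0)).2.1 + 1)
  simp only at hc
  generalize τ (φ (k, 0, 0)).1 = T at *
  generalize (φ (k, 0, 0)).2.1 = N at *
  have := Nat.mul_le_mul_right (T * N + 1) (Nat.succ_le_of_lt hc)
  simp only [Nat.succ_eq_add_one] at this
  nlinarith

lemma retr (σ β ι π : ℕ → ℕ) (h1 : ∀ k, β (ι k) = σ k) (h2 : ∀ k, π (ι k) = k)
    (h3 : ∀ j, β j ≤ σ (π j)) : SO (S := Function.End X) (F σ) (F β) := by
  let g : X → X := fun x =>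
    if β x.1 = σ (π x.1) ∨ x.2.2 ≤ β x.1 * x.2.1 then (π x.1, x.2) else (π x.1, x.2.1, 0)
  let h : X → X := fun x => (ι x.1, x.2)
  have hgh : ∀ x, g (h x) = x := fun x => by simp [g, h, h1, h2]
  refine ⟨g, h, funext fun x => hgh _, funext fun x => congrArg h (hgh x), funext fun x => ?_,
    funext fun x => ?_⟩
  · obtain ⟨j, n, t⟩ := x
    change F σ (g _) = g (F β _)
    have := Nat.mul_le_mul_right n (h3 j)
    by_cases e : β j = σ (π j)
    · simp only [g, F, e, true_or, if_true]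
      split_ifs <;> simp_all
    · by_cases ht : t ≤ β j * n
      · by_cases h0 : t = 0
        · simp [g, F, h0]
        · have a1 : 0 < t := by omega
          have a2 : t ≤ σ (π j) * n := by omega
          have a3 : t - 1 ≤ β j * n := by omega
          simp [g, F, ht, a1, a2, a3]
      · simp [g, F, ht, e]
  · change F β (h x) = h (F σ x)
    simp only [h, F, h1]
    split_ifs <;> rfl

theorem result : ∃ (S : Type) (_ : Monoid S), IsRegular S ∧
    ∃ a b c : S, SO a b ∧ SO b c ∧ ¬ SO a c := by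
  refine ⟨Function.End X, inferInstance, fun x => ⟨Function.invFun x, funext fun a =>
    (Function.apply_invFun_apply (f := x)).symm⟩, F fun k => 2 * k + 1, F fun k => k + 1,
    F fun k => 2 * k + 2, retr _ _ (fun k => 2 * k) (fun j => (j + 1) / 2) (fun _ => rfl)
      (fun _ => by omega) (fun _ => by omega), ?_, ?_⟩
  · obtain ⟨g, h, h1, h2, h3, h4⟩ := retr (fun k => 2 * k + 2) (fun k => k + 1) (fun k => 2 * k + 1)
      (fun j => j / 2) (fun _ => rfl) (fun _ => by omega) (fun _ => by omega)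
    exact ⟨h, g, h2, h1, h4, h3⟩
  · rintro ⟨g, h, h1, -, h3, h4⟩
    have a1 := slope (fun k => 2 * k + 2) (fun k => 2 * k + 1) (fun _ => by omega) g (fun x => (congrFun h3 x).symm) (h (g (0, 0, 0)))
    have a2 := slope (fun k => 2 * k + 1) (fun k => 2 * k + 2) (fun _ => by omega) h (fun x => (congrFun h4 x).symm) (g (0, 0, 0))
    have e : g (h (g (0, 0, 0))) = g (0, 0, 0) := congrFun h1 _
    rw [e] at a1
    omega

end Pool.Agent.Results.MP_d6d41b_al.NotTransitive
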